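import Mathlib

set_option autoImplicit false

namespace Pool.Agent.Lib.MP_ee7c95_co

open Filter Topology

/-! ### The infinite weak type: tables -/

/-- colour codes (0 green, 1 blue, 2 red, 3 white) between the first twelve vertices
`y, e1, e2, c0, c1, c2, c3, c4, E, A, x1, x2` -/
def tab : List (List ℕ) :=
  [[2, 1, 1, 0, 0, 0, 0, 0, 1, 1, 2, 2],
   [1, 3, 0, 0, 0, 0, 0, 0, 0, 2, 1, 1],
   [1, 0, 3, 0, 0, 0, 0, 0, 1, 1, 1, 1],
   [0, 0, 0, 3, 0, 1, 1, 0, 0, 0, 0, 0],
   [0, 0, 0, 0, 3, 0, 1, 1, 0, 0, 0, 0],
   [0, 0, 0, 1, 0, 3, 0, 0, 0, 0, 0, 0],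
   [0, 0, 0, 1, 1, 0, 3, 0, 0, 0, 0, 0],
   [0, 0, 0, 0, 1, 0, 0, 3, 1, 0, 0, 0],
   [1, 0, 1, 0, 0, 0, 0, 1, 3, 0, 2, 2],
   [1, 2, 1, 0, 0, 0, 0, 0, 0, 3, 0, 1],
   [2, 1, 1, 0, 0, 0, 0, 0, 2, 0, 3, 1],
   [2, 1, 1, 0, 0, 0, 0, 0, 2, 1, 1, 3]]

/-- colour code of a pair of vertices of the infinite weak type on `ℕ` -/
def code (a b : ℕ) : ℕ :=
  if a < 12 ∧ b < 12 then (tab.getD a []).getD b 3
  else if a < 11 then (tab.getD 0 []).getD a 3
  else if b < 11 then (tab.getD 0 []).getD b 3
  else if a = b then 3 else if a = b + 1 ∨ b = a + 1 then 1 else 2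

/-- cost of a colour code at `p = 53/120` -/
def codeCost : ℕ → ℚ
  | 0 => 0
  | 1 => 53 / 120
  | 2 => 67 / 120
  | _ => 1

/-- the cost `1 - W` -/
def costQ (a b : ℕ) : ℚ := codeCost (code a b)

/-- `1 - μ` -/
def delQ : ℚ := 2579128349904763 / 13273651081915800

/-- the linear forms -/
def rows : List (List ℤ) :=
  [[-14, 67, -53, 0, 0, 0, 0, 0, -53, 14, -14, -14],
   [-560, -560, 1120, 0, 0, 0, 0, 0, -689, 182, -560, -560],
   [-173, -173, -173, 360, 0, 159, 159, 0, -106, -173, -173, -173],
   [-20760, -20760, -20760, -20760, 63960, -9169, 19080, 28249, -12720, -20760, -20760, -20760],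
   [-1390920, -1390920, -1390920, -1390920, -1390920, 7568923, -3211800, -614323, -852240,
    -1390920, -1390920, -1390920],
   [-60632521, -60632521, -60632521, -60632521, -60632521, -60632521, 559528684, -236514355,
    -37150562, -60632521, -60632521, -60632521],
   [-10489426133, -10489426133, -10489426133, -10489426133, -10489426133, -10489426133,
    -10489426133, 51152473920, 26441496639, -10489426133, -10489426133, -10489426133],
   [-1166055527280, -1166055527280, -1166055527280, -1166055527280, -1166055527280,
    -1166055527280, -1166055527280, -1166055527280, 2220887247916321, -2425295417011558,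
    1448651433719280, 1448651433719280],
   [-515007857882, -515007857882, -515007857882, -515007857882, -515007857882, -515007857882,
    -515007857882, -515007857882, -515007857882, 1410120712998583, -1582232253550919,
    639821049892682],
   [-215859088681, -215859088681, -215859088681, -215859088681, -215859088681, -215859088681,
    -215859088681, -215859088681, -215859088681, -215859088681, 52284382876883,
    -202038933210074],
   [-132569408161, -132569408161, -132569408161, -132569408161, -132569408161, -132569408161,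
    -132569408161, -132569408161, -132569408161, -132569408161, -132569408161, 110481189607804]]

/-- the coefficients of the squares of the linear forms -/
def dens : List ℚ :=
  [1 / 9720, 1 / 5443200, 1 / 191880, 1 / 5418691200, 1 / 91089347875200,
   1 / 666785643778897800, 1 / 4587349801842965263800, 1 / 27613472068891081006585227964800,
   53 / 376140931618158415027385247655800, 7 / 1481174333404644161622335425200,
   7 / 1045304840350574812450121266800]

/-- `k`-th linear form at vertex `a` -/
def ellQ (k a : ℕ) : ℚ := (((rows.getD k []).getD (if a < 12 then a else 0) 0 : ℤ) : ℚ)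

/-- coefficient of the `k`-th square -/
def dQ (k : ℕ) : ℚ := dens.getD k 0

/-- the chain forms `[a = i + 1] - t [a = i]` -/
def chiQ (i a : ℕ) : ℚ := (if a = i + 1 then 1 else 0) - 2 / 7 * (if a = i then 1 else 0)

/-- the chain part of the kernel -/
def chainQ (a b : ℕ) : ℚ :=
  if a < 11 ∨ b < 11 then 0
  else if a = b then (if a = 11 then 4 / 49 else 53 / 49)
  else if a = b + 1 ∨ b = a + 1 then -2 / 7 else 0

theorem dQ_pos : ∀ k < 11, 0 ≤ dQ k := by decide +kernel

theorem chain_sum (a b N : ℕ) (ha : a ≤ N) (hb : b ≤ N) :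
    ∑ i ∈ Finset.Ico 11 (N + 1), chiQ i a * chiQ i b = chainQ a b := by
  have key : ∀ i, chiQ i a * chiQ i b =
      (if i = a then (4 / 49 * (if a = b then (1 : ℚ) else 0) - 2 / 7 * (if b = a + 1 then 1 else 0))
        else 0) +
      (if i + 1 = a then ((if a = b then (1 : ℚ) else 0) - 2 / 7 * (if b + 1 = a then 1 else 0))
        else 0) := by
    intro i
    unfold chiQ
    by_cases h1 : i = a
    · subst h1
      by_cases h2 : b = i
      · subst h2; simp; norm_num
      · by_cases h3 : b = i + 1
        · subst h3; simp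
        · have h2' : ¬ i = b := fun h => h2 h.symm
          simp [h2, h3, h2']
    · by_cases h2 : i + 1 = a
      · subst h2
        by_cases h3 : b = i + 1
        · subst h3; simp
        · by_cases h4 : b = i
          · subst h4; simp
          · have h3' : ¬ i + 1 = b := fun h => h3 h.symm
            simp [h3, h4, h3']
      · have h1' : ¬ a = i := fun h => h1 h.symm
        have h2' : ¬ a = i + 1 := fun h => h2 h.symm
        simp [h1, h2, h1', h2']
  rw [Finset.sum_congr rfl fun i _ => key i, Finset.sum_add_distrib]
  rw [Finset.sum_ite_eq' (Finset.Ico 11 (N + 1)) a]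
  have h2 : ∀ c : ℚ, ∑ i ∈ Finset.Ico 11 (N + 1), (if i + 1 = a then c else 0) =
      if 12 ≤ a then c else 0 := by
    intro c
    by_cases h : 12 ≤ a
    · rw [if_pos h, Finset.sum_eq_single (a - 1)]
      · rw [if_pos (by omega)]
      · intro b _ hb; rw [if_neg (by omega)]
      · intro h'; exfalso; apply h'; rw [Finset.mem_Ico]; omega
    · rw [if_neg h]
      apply Finset.sum_eq_zero
      intro i hi
      rw [Finset.mem_Ico] at hi
      rw [if_neg (by omega)]
  rw [h2]
  unfold chainQ
  simp only [Finset.mem_Ico]
  by_cases h11 : a < 11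
  · rw [if_neg (by omega), if_neg (by omega), if_pos (Or.inl h11)]; norm_num
  · by_cases hb11 : b < 11
    · rw [if_pos (Or.inr hb11), if_pos (by omega)]
      rw [if_neg (show ¬ a = b by omega), if_neg (show ¬ b = a + 1 by omega)]
      by_cases h12 : 12 ≤ a
      · rw [if_pos h12, if_neg (show ¬ b + 1 = a by omega)]; norm_num
      · rw [if_neg h12]; norm_num
    · rw [if_pos (by omega), if_neg (show ¬ (a < 11 ∨ b < 11) by omega)]
      by_cases hab : a = b
      · subst hab
        by_cases h12 : a = 11
        · subst h12; norm_num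
        · rw [if_pos (show 12 ≤ a by omega), if_neg h12]
          simp; norm_num
      · rw [if_neg hab, if_neg hab]
        by_cases h3 : b = a + 1
        · subst h3
          rw [if_neg (show ¬ a + 1 + 1 = a by omega), if_pos rfl, if_pos (Or.inr rfl)]
          split_ifs <;> norm_num
        · by_cases h4 : a = b + 1
          · subst h4
            rw [if_pos (show 12 ≤ b + 1 by omega), if_neg h3, if_pos rfl, if_pos (Or.inl rfl)]
            norm_num
          · rw [if_neg h3, if_neg (show ¬ (a = b + 1 ∨ b = a + 1) by omega)]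
            rw [if_neg (show ¬ b + 1 = a by omega)]
            simp

theorem base_kernel : ∀ a < 12, ∀ b < 12, costQ a b =
    delQ + ∑ k ∈ Finset.range 11, dQ k * (ellQ k a * ellQ k b) + 49 / 120 * chainQ a b := by
  decide +kernel

theorem ellQ_big (k a : ℕ) (ha : 12 ≤ a) : ellQ k a = ellQ k 0 := by
  unfold ellQ
  rw [if_neg (by omega), if_pos (by norm_num)]

theorem code_comm (a b : ℕ) : code a b = code b a := by
  have h12 : ∀ a < 12, ∀ b < 12, (tab.getD a []).getD b 3 = (tab.getD b []).getD a 3 := by
    decide
  by_cases h : a < 12 ∧ b < 12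
  · unfold code
    rw [if_pos h, if_pos h.symm, h12 a h.1 b h.2]
  · have h' : ¬ (b < 12 ∧ a < 12) := fun h' => h h'.symm
    unfold code
    rw [if_neg h, if_neg h']
    split_ifs <;> first | rfl | omega

theorem costQ_comm (a b : ℕ) : costQ a b = costQ b a := by
  unfold costQ; rw [code_comm]

theorem chainQ_comm (a b : ℕ) : chainQ a b = chainQ b a := by
  unfold chainQ
  split_ifs <;> first | rfl | omega

/-- the kernel identity when the second vertex is far on the chain -/
theorem kernel_big (a b : ℕ) (hb : 12 ≤ b) : costQ a b =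
    delQ + ∑ k ∈ Finset.range 11, dQ k * (ellQ k a * ellQ k b) + 49 / 120 * chainQ a b := by
  have hsum : ∀ a, ∑ k ∈ Finset.range 11, dQ k * (ellQ k a * ellQ k b) =
      ∑ k ∈ Finset.range 11, dQ k * (ellQ k a * ellQ k 0) :=
    fun a => Finset.sum_congr rfl fun k _ => by rw [ellQ_big k b hb]
  by_cases ha : a < 12
  · have h0 := base_kernel a ha 0 (by norm_num)
    rw [hsum]
    by_cases ha' : a < 11
    · have h1 : costQ a b = costQ a 0 := by
        rw [costQ_comm a 0]
        unfold costQ code
        rw [if_neg (by omega), if_pos ha', if_pos (by omega)]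
      have h2 : chainQ a b = 0 := by unfold chainQ; rw [if_pos (Or.inl ha')]
      have h3 : chainQ a 0 = 0 := by unfold chainQ; rw [if_pos (Or.inr (by norm_num))]
      rw [h1, h2, h0, h3]
    · have ha11 : a = 11 := by omega
      subst ha11
      have h3 : chainQ 11 0 = 0 := by unfold chainQ; rw [if_pos (Or.inr (by norm_num))]
      have h4 : costQ 11 0 = 67 / 120 := by decide +kernel
      rw [h3, h4] at h0
      have h1 : costQ 11 b = if b = 12 then 53 / 120 else 67 / 120 := by
        unfold costQ code
        rw [if_neg (by omega), if_neg (by omega), if_neg (by omega), if_neg (by omega)]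
        by_cases h : b = 12
        · rw [if_pos (by omega), if_pos h]; rfl
        · rw [if_neg (by omega), if_neg h]; rfl
      have h2 : chainQ 11 b = if b = 12 then -2 / 7 else 0 := by
        unfold chainQ
        rw [if_neg (by omega), if_neg (by omega)]
        by_cases h : b = 12
        · rw [if_pos (by omega), if_pos h]
        · rw [if_neg (by omega), if_neg h]
      rw [h1, h2]
      have h0' : ∑ k ∈ Finset.range 11, dQ k * (ellQ k 11 * ellQ k 0) = 67 / 120 - delQ := by
        linarith
      rw [h0']
      by_cases h : b = 12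
      · rw [if_pos h, if_pos h]; ring
      · rw [if_neg h, if_neg h]; ring
  · have h0 := base_kernel 0 (by norm_num) 0 (by norm_num)
    have h3 : chainQ 0 0 = 0 := by unfold chainQ; rw [if_pos (Or.inr (by norm_num))]
    have h4 : costQ 0 0 = 67 / 120 := by decide +kernel
    rw [h3, h4] at h0
    have h5 : ∑ k ∈ Finset.range 11, dQ k * (ellQ k a * ellQ k b) =
        ∑ k ∈ Finset.range 11, dQ k * (ellQ k 0 * ellQ k 0) :=
      Finset.sum_congr rfl fun k _ => by rw [ellQ_big k b hb, ellQ_big k a (by omega)]
    have h0' : ∑ k ∈ Finset.range 11, dQ k * (ellQ k 0 * ellQ k 0) = 67 / 120 - delQ := by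
      linarith
    rw [h5, h0']
    have h1 : costQ a b = if a = b then 1 else if a = b + 1 ∨ b = a + 1 then 53 / 120
        else 67 / 120 := by
      unfold costQ code
      rw [if_neg (by omega), if_neg (by omega), if_neg (by omega)]
      by_cases h : a = b
      · rw [if_pos h, if_pos h]; rfl
      · rw [if_neg h, if_neg h]
        by_cases h' : a = b + 1 ∨ b = a + 1
        · rw [if_pos h', if_pos h']; rfl
        · rw [if_neg h', if_neg h']; rfl
    have h2 : chainQ a b = if a = b then 53 / 49 else if a = b + 1 ∨ b = a + 1 then -2 / 7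
        else 0 := by
      unfold chainQ
      rw [if_neg (by omega)]
      by_cases h : a = b
      · rw [if_pos h, if_pos h, if_neg (by omega)]
      · rw [if_neg h, if_neg h]
    rw [h1, h2]
    by_cases h : a = b
    · rw [if_pos h, if_pos h]; ring
    · rw [if_neg h, if_neg h]
      by_cases h' : a = b + 1 ∨ b = a + 1
      · rw [if_pos h', if_pos h']; ring
      · rw [if_neg h', if_neg h']; ring

/-- the kernel identity -/
theorem kernelQ (a b : ℕ) : costQ a b =
    delQ + ∑ k ∈ Finset.range 11, dQ k * (ellQ k a * ellQ k b) + 49 / 120 * chainQ a b := by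
  by_cases hb : 12 ≤ b
  · exact kernel_big a b hb
  · by_cases ha : 12 ≤ a
    · rw [costQ_comm, chainQ_comm, kernel_big b a ha]
      congr 2
      exact Finset.sum_congr rfl fun k _ => by rw [mul_comm (ellQ k b)]
    · exact base_kernel a (by omega) b (by omega)

end Pool.Agent.Lib.MP_ee7c95_co
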