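import Mathlib
import Pool.Agent.Lib.MP_ee7c95_co.Kernel

/-!
# Energy of finite measures on the infinite weak type
-/

set_option autoImplicit false

namespace Pool.Agent.Lib.MP_ee7c95_co

open Filter Topology

/-- the cost as a real number -/
noncomputable def cost (a b : ℕ) : ℝ := (costQ a b : ℝ)

/-- the minimal energy -/
noncomputable def del : ℝ := (delQ : ℝ)

/-- real chain form -/
noncomputable def chi (i a : ℕ) : ℝ := (if a = i + 1 then 1 else 0) - 2 / 7 * (if a = i then 1 else 0)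

theorem cost_comm (a b : ℕ) : cost a b = cost b a := by unfold cost; rw [costQ_comm]

theorem chi_cast (i a : ℕ) : ((chiQ i a : ℚ) : ℝ) = chi i a := by
  unfold chiQ chi
  split_ifs <;> norm_num

theorem kernel (a b N : ℕ) (ha : a ≤ N) (hb : b ≤ N) : cost a b =
    del + ∑ k ∈ Finset.range 11, (dQ k : ℝ) * ((ellQ k a : ℝ) * (ellQ k b : ℝ)) +
      49 / 120 * ∑ i ∈ Finset.Ico 11 (N + 1), chi i a * chi i b := by
  have h := kernelQ a b
  rw [← chain_sum a b N ha hb] at h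
  unfold cost del
  rw [h]
  push_cast
  congr 2
  exact Finset.sum_congr rfl fun i _ => by rw [chi_cast, chi_cast]

/-- the energy of a finite measure -/
theorem energy_eq {ι : Type} (s : Finset ι) (w : ι → ℝ) (hw : ∑ u ∈ s, w u = 1) (φ : ι → ℕ)
    (N : ℕ) (hN : ∀ u ∈ s, φ u ≤ N) :
    ∑ u ∈ s, ∑ v ∈ s, w u * w v * cost (φ u) (φ v) =
      del + ∑ k ∈ Finset.range 11, (dQ k : ℝ) * (∑ u ∈ s, w u * (ellQ k (φ u) : ℝ)) ^ 2 +
        49 / 120 * ∑ i ∈ Finset.Ico 11 (N + 1), (∑ u ∈ s, w u * chi i (φ u)) ^ 2 := by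
  have h1 : ∑ u ∈ s, ∑ v ∈ s, w u * w v * cost (φ u) (φ v) =
      ∑ u ∈ s, ∑ v ∈ s, (w u * w v * del +
        ∑ k ∈ Finset.range 11, (dQ k : ℝ) *
          ((w u * (ellQ k (φ u) : ℝ)) * (w v * (ellQ k (φ v) : ℝ))) +
        49 / 120 * ∑ i ∈ Finset.Ico 11 (N + 1), (w u * chi i (φ u)) * (w v * chi i (φ v))) := by
    refine Finset.sum_congr rfl fun u hu => Finset.sum_congr rfl fun v hv => ?_
    rw [kernel (φ u) (φ v) N (hN u hu) (hN v hv), mul_add, mul_add, Finset.mul_sum]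
    congr 1
    · congr 1
      exact Finset.sum_congr rfl fun k _ => by ring
    · rw [mul_left_comm, Finset.mul_sum]
      congr 1
      exact Finset.sum_congr rfl fun k _ => by ring
  have h2 : ∀ f : ι → ℝ, ∑ u ∈ s, ∑ v ∈ s, f u * f v = (∑ u ∈ s, f u) ^ 2 := by
    intro f
    rw [sq, Finset.sum_mul_sum]
  rw [h1]
  simp only [Finset.sum_add_distrib]
  congr 1
  · congr 1
    · simp only [← Finset.sum_mul]
      rw [h2 w, hw]; ring
    · simp only [Finset.sum_comm (s := s) (t := Finset.range 11)]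
      refine Finset.sum_congr rfl fun k _ => ?_
      simp only [← Finset.mul_sum, ← Finset.sum_mul]
      ring
  · simp only [← Finset.mul_sum]
    congr 1
    simp only [Finset.sum_comm (s := s) (t := Finset.Ico 11 (N + 1))]
    refine Finset.sum_congr rfl fun k _ => ?_
    simp only [← Finset.mul_sum, ← Finset.sum_mul]
    ring

/-- the optimal mass at the first chain vertex -/
noncomputable def w0 : ℝ := 132569408161 / 110613759015965

/-- mass at a vertex -/
noncomputable def mass {ι : Type} (s : Finset ι) (w : ι → ℝ) (φ : ι → ℕ) (a : ℕ) : ℝ :=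
  ∑ u ∈ s, w u * (if φ u = a then 1 else 0)

theorem ell10 (a : ℕ) : ellQ 10 a = (if a = 11 then 110613759015965 else 0) - 132569408161 := by
  by_cases h : a < 12
  · have : ∀ a < 12, ellQ 10 a = (if a = 11 then 110613759015965 else 0) - 132569408161 := by
      decide +kernel
    exact this a h
  · rw [ellQ_big 10 a (by omega), if_neg (by omega)]
    decide +kernel

theorem ell10_sum {ι : Type} (s : Finset ι) (w : ι → ℝ) (hw : ∑ u ∈ s, w u = 1) (φ : ι → ℕ) :
    ∑ u ∈ s, w u * (ellQ 10 (φ u) : ℝ) = 110613759015965 * (mass s w φ 11 - w0) := by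
  have : ∀ u ∈ s, w u * (ellQ 10 (φ u) : ℝ) =
      110613759015965 * (w u * (if φ u = 11 then 1 else 0)) - w u * 132569408161 := by
    intro u _
    rw [ell10]
    split_ifs <;> push_cast <;> ring
  rw [Finset.sum_congr rfl this, Finset.sum_sub_distrib, ← Finset.mul_sum, ← Finset.sum_mul, hw]
  unfold mass w0
  ring

theorem chi_sum {ι : Type} (s : Finset ι) (w : ι → ℝ) (φ : ι → ℕ) (i : ℕ) :
    ∑ u ∈ s, w u * chi i (φ u) = mass s w φ (i + 1) - 2 / 7 * mass s w φ i := by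
  unfold mass
  rw [Finset.mul_sum, ← Finset.sum_sub_distrib]
  refine Finset.sum_congr rfl fun u _ => ?_
  unfold chi
  ring

/-- propagation along the chain -/
theorem chain_bound (m : ℕ → ℝ) (j : ℕ) :
    (m (11 + j) - w0 * (2 / 7) ^ j) ^ 2 ≤
      (m 11 - w0) ^ 2 + 7 / 5 * ∑ i ∈ Finset.Ico 11 (11 + j), (m (i + 1) - 2 / 7 * m i) ^ 2 := by
  induction j with
  | zero => simp
  | succ j ih =>
    rw [← add_assoc, Finset.sum_Ico_succ_top (by omega)]
    have h : ∀ d b : ℝ, (2 / 7 * d + b) ^ 2 ≤ d ^ 2 + 7 / 5 * b ^ 2 := by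
      intro d b
      nlinarith [sq_nonneg (d - 7 / 5 * b), sq_nonneg d]
    have h2 := h (m (11 + j) - w0 * (2 / 7) ^ j) (m (11 + j + 1) - 2 / 7 * m (11 + j))
    have h3 : m (11 + j + 1) - w0 * (2 / 7) ^ (j + 1) =
        2 / 7 * (m (11 + j) - w0 * (2 / 7) ^ j) + (m (11 + j + 1) - 2 / 7 * m (11 + j)) := by
      ring
    rw [h3]
    linarith

/-- lower bound for the energy of a finite measure -/
theorem energy_lower {ι : Type} (s : Finset ι) (w : ι → ℝ) (hw : ∑ u ∈ s, w u = 1) (φ : ι → ℕ)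
    (j : ℕ) :
    del + 2 / 35 * (mass s w φ (11 + j) - w0 * (2 / 7) ^ j) ^ 2 ≤
      ∑ u ∈ s, ∑ v ∈ s, w u * w v * cost (φ u) (φ v) := by
  obtain ⟨N, hN⟩ : ∃ N : ℕ, (∀ u ∈ s, φ u ≤ N) ∧ 11 + j ≤ N :=
    ⟨(s.sup φ) + (11 + j), fun u hu => (Finset.le_sup hu).trans (Nat.le_add_right _ _),
      Nat.le_add_left _ _⟩
  rw [energy_eq s w hw φ N hN.1]
  have h1 : (2 : ℝ) / 25 * (mass s w φ 11 - w0) ^ 2 ≤
      ∑ k ∈ Finset.range 11, (dQ k : ℝ) * (∑ u ∈ s, w u * (ellQ k (φ u) : ℝ)) ^ 2 := by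
    rw [Finset.sum_range_succ, ell10_sum s w hw φ]
    have h0 : 0 ≤ ∑ k ∈ Finset.range 10, (dQ k : ℝ) * (∑ u ∈ s, w u * (ellQ k (φ u) : ℝ)) ^ 2 := by
      refine Finset.sum_nonneg fun k hk => mul_nonneg ?_ (sq_nonneg _)
      rw [Finset.mem_range] at hk
      exact_mod_cast dQ_pos k (by omega)
    have h10 : (dQ 10 : ℝ) = 7 / 1045304840350574812450121266800 := by
      have : dQ 10 = 7 / 1045304840350574812450121266800 := by decide +kernel
      rw [this]; norm_num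
    rw [h10, mul_pow]
    nlinarith [sq_nonneg (mass s w φ 11 - w0)]
  have h2 : ∑ i ∈ Finset.Ico 11 (11 + j), (mass s w φ (i + 1) - 2 / 7 * mass s w φ i) ^ 2 ≤
      ∑ i ∈ Finset.Ico 11 (N + 1), (∑ u ∈ s, w u * chi i (φ u)) ^ 2 := by
    simp only [chi_sum s w φ]
    exact Finset.sum_le_sum_of_subset_of_nonneg
      (Finset.Ico_subset_Ico le_rfl (by omega)) fun _ _ _ => sq_nonneg _
  have h3 := chain_bound (mass s w φ) j
  have h4 : 0 ≤ ∑ i ∈ Finset.Ico 11 (11 + j), (mass s w φ (i + 1) - 2 / 7 * mass s w φ i) ^ 2 :=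
    Finset.sum_nonneg fun _ _ => sq_nonneg _
  nlinarith [sq_nonneg (mass s w φ 11 - w0)]

end Pool.Agent.Lib.MP_ee7c95_co
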