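import Mathlib
import Pool.Agent.Lib.MP_ee7c95_co.Energy

/-!
# Truncations of the optimal measure, and a greedy choice lemma
-/

set_option autoImplicit false

namespace Pool.Agent.Lib.MP_ee7c95_co

open Filter Topology

/-- masses of the vertices `1, ..., 10` -/
def uL : List ℚ :=
  [29279169903471 / 221227518031930, 29084827315591 / 221227518031930,
   6102203601431 / 110613759015965, 1244695986408 / 22122751803193,
   18797596325241 / 110613759015965, 3209778537718 / 22122751803193,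
   18523008406881 / 110613759015965, 500432163791 / 110613759015965,
   2123192772589 / 221227518031930, 1928850184709 / 221227518031930]

/-- masses of the first eleven vertices, all the chain mass being put at `0` -/
def uQ (a : ℕ) : ℚ := if a = 0 then 1 - uL.sum else uL.getD (a - 1) 0

/-- truncated optimal measure -/
noncomputable def zt (M a : ℕ) : ℝ :=
  if a < 11 then (uQ a : ℝ) - (if a = 0 then w0 * ∑ x ∈ Finset.range (M + 1), (2 / 7 : ℝ) ^ x else 0)
  else w0 * (2 / 7) ^ (a - 11)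

theorem sum_zt (M : ℕ) (f : ℕ → ℝ) :
    ∑ a ∈ Finset.range (11 + (M + 1)), zt M a * f a =
      ∑ a ∈ Finset.range 11, (uQ a : ℝ) * f a +
        w0 * ∑ x ∈ Finset.range (M + 1), (2 / 7 : ℝ) ^ x * (f (11 + x) - f 0) := by
  rw [Finset.sum_range_add]
  have h1 : ∑ a ∈ Finset.range 11, zt M a * f a = ∑ a ∈ Finset.range 11, (uQ a : ℝ) * f a -
      (w0 * ∑ x ∈ Finset.range (M + 1), (2 / 7 : ℝ) ^ x) * f 0 := by
    have : ∀ a ∈ Finset.range 11, zt M a * f a = (uQ a : ℝ) * f a -
        (if a = 0 then (w0 * ∑ x ∈ Finset.range (M + 1), (2 / 7 : ℝ) ^ x) * f 0 else 0) := by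
      intro a ha
      rw [Finset.mem_range] at ha
      unfold zt
      rw [if_pos ha]
      by_cases h : a = 0
      · subst h; rw [if_pos rfl, if_pos rfl]; ring
      · rw [if_neg h, if_neg h]; ring
    rw [Finset.sum_congr rfl this, Finset.sum_sub_distrib, Finset.sum_ite_eq', if_pos (by simp)]
  have h2 : ∑ x ∈ Finset.range (M + 1), zt M (11 + x) * f (11 + x) =
      w0 * ∑ x ∈ Finset.range (M + 1), (2 / 7 : ℝ) ^ x * f (11 + x) := by
    rw [Finset.mul_sum]
    refine Finset.sum_congr rfl fun x _ => ?_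
    unfold zt
    rw [if_neg (by omega), Nat.add_sub_cancel_left]
    ring
  rw [h1, h2]
  simp only [mul_sub, Finset.sum_sub_distrib, ← Finset.sum_mul]
  ring

theorem uQ_sum : ∑ a ∈ Finset.range 11, uQ a = 1 := by decide +kernel

theorem uQ_pos : ∀ a < 11, 0 ≤ uQ a := by decide +kernel

theorem uQ_zero : 7 / 5 * (132569408161 / 110613759015965) ≤ uQ 0 := by decide +kernel

theorem uQ_ell : ∀ k < 11, ∑ a ∈ Finset.range 11, uQ a * ellQ k a +
    (132569408161 / 110613759015965) * (ellQ k 11 - ellQ k 0) = 0 := by decide +kernel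

theorem w0_pos : 0 < w0 := by unfold w0; norm_num

theorem zt_nonneg (M a : ℕ) : 0 ≤ zt M a := by
  unfold zt
  by_cases h : a < 11
  · rw [if_pos h]
    by_cases h0 : a = 0
    · subst h0
      rw [if_pos rfl]
      have h1 : ∑ x ∈ Finset.range (M + 1), (2 / 7 : ℝ) ^ x ≤ 7 / 5 := by
        rw [geom_sum_eq (by norm_num)]
        have : 0 ≤ (2 / 7 : ℝ) ^ (M + 1) := by positivity
        rw [div_le_iff_of_neg (by norm_num)]
        linarith
      have h2 : (7 : ℝ) / 5 * w0 ≤ (uQ 0 : ℝ) := by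
        have h3 : ((7 / 5 * (132569408161 / 110613759015965) : ℚ) : ℝ) ≤ (uQ 0 : ℝ) :=
          Rat.cast_le.mpr uQ_zero
        unfold w0
        push_cast at h3
        exact h3
      nlinarith [w0_pos]
    · rw [if_neg h0, sub_zero]
      exact_mod_cast uQ_pos a h
  · rw [if_neg h]
    exact mul_nonneg w0_pos.le (by positivity)

theorem zt_sum (M : ℕ) : ∑ a ∈ Finset.range (11 + (M + 1)), zt M a = 1 := by
  have h := sum_zt M (fun _ => 1)
  simp only [mul_one, sub_self, mul_zero, Finset.sum_const_zero, add_zero] at h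
  rw [h]
  exact_mod_cast uQ_sum

theorem zt_ell (M k : ℕ) (hk : k < 11) :
    ∑ a ∈ Finset.range (11 + (M + 1)), zt M a * (ellQ k a : ℝ) = 0 := by
  rw [sum_zt M, Finset.sum_range_succ' _ M]
  have h1 : ∑ x ∈ Finset.range M, (2 / 7 : ℝ) ^ (x + 1) *
      ((ellQ k (11 + (x + 1)) : ℝ) - (ellQ k 0 : ℝ)) = 0 := by
    apply Finset.sum_eq_zero
    intro x _
    rw [ellQ_big k (11 + (x + 1)) (by omega), sub_self, mul_zero]
  rw [h1]
  have h2 := uQ_ell k hk
  have h3 : ((∑ a ∈ Finset.range 11, uQ a * ellQ k a +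
    (132569408161 / 110613759015965) * (ellQ k 11 - ellQ k 0) : ℚ) : ℝ) = 0 := by
    rw [h2]; norm_num
  push_cast at h3
  unfold w0
  rw [zero_add, pow_zero, one_mul]
  exact h3

theorem zt_chi (M y : ℕ) (hy : y < M + 1) :
    ∑ a ∈ Finset.range (11 + (M + 1)), zt M a * chi (11 + y) a =
      if y = M then - (w0 * (2 / 7) ^ (M + 1)) else 0 := by
  rw [sum_zt M]
  have h0 : ∀ a < 11, chi (11 + y) a = 0 := by
    intro a ha
    unfold chi
    rw [if_neg (by omega), if_neg (by omega)]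
    norm_num
  have h1 : ∑ a ∈ Finset.range 11, (uQ a : ℝ) * chi (11 + y) a = 0 := by
    apply Finset.sum_eq_zero
    intro a ha
    rw [Finset.mem_range] at ha
    rw [h0 a ha, mul_zero]
  rw [h1, h0 0 (by norm_num)]
  have h2 : ∀ x ∈ Finset.range (M + 1), (2 / 7 : ℝ) ^ x * (chi (11 + y) (11 + x) - 0) =
      (if x = y + 1 then (2 / 7 : ℝ) ^ (y + 1) else 0) -
        (if x = y then (2 / 7 : ℝ) ^ (y + 1) else 0) := by
    intro x _
    unfold chi
    by_cases h : x = y + 1
    · subst h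
      rw [if_pos (by omega), if_neg (by omega), if_pos rfl, if_neg (by omega)]
      ring
    · rw [if_neg (by omega), if_neg h]
      by_cases h' : x = y
      · subst h'
        rw [if_pos rfl, if_pos rfl]
        ring
      · rw [if_neg (by omega), if_neg h']
        ring
  rw [Finset.sum_congr rfl h2, Finset.sum_sub_distrib, Finset.sum_ite_eq', Finset.sum_ite_eq']
  simp only [Finset.mem_range]
  rw [if_pos hy]
  by_cases h : y = M
  · subst h
    rw [if_neg (by omega), if_pos rfl]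
    ring
  · rw [if_pos (by omega), if_neg h]
    ring

theorem zt_energy (M : ℕ) :
    ∑ a ∈ Finset.range (11 + (M + 1)), ∑ b ∈ Finset.range (11 + (M + 1)),
      zt M a * zt M b * cost a b = del + 49 / 120 * (w0 * (2 / 7) ^ (M + 1)) ^ 2 := by
  have h := energy_eq (Finset.range (11 + (M + 1))) (zt M) (zt_sum M) id (11 + M)
    (fun u hu => by rw [Finset.mem_range] at hu; simp only [id]; omega)
  simp only [id] at h
  rw [h]
  have h1 : ∑ k ∈ Finset.range 11, (dQ k : ℝ) *
      (∑ u ∈ Finset.range (11 + (M + 1)), zt M u * (ellQ k u : ℝ)) ^ 2 = 0 := by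
    apply Finset.sum_eq_zero
    intro k hk
    rw [Finset.mem_range] at hk
    rw [zt_ell M k hk]
    ring
  have h2 : ∑ i ∈ Finset.Ico 11 (11 + M + 1),
      (∑ u ∈ Finset.range (11 + (M + 1)), zt M u * chi i u) ^ 2 =
      (w0 * (2 / 7) ^ (M + 1)) ^ 2 := by
    rw [Finset.sum_Ico_eq_sum_range]
    have : 11 + M + 1 - 11 = M + 1 := by omega
    rw [this, Finset.sum_congr rfl (g := fun y => if y = M then (w0 * (2 / 7) ^ (M + 1)) ^ 2 else 0)]
    · rw [Finset.sum_ite_eq', if_pos (by simp)]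
    · intro y hy
      rw [Finset.mem_range] at hy
      rw [zt_chi M y hy]
      split_ifs
      · ring
      · ring
  rw [h1, h2]
  ring

/-- greedy choice -/
theorem greedy (s : Finset ℕ) (z : ℕ → ℝ) (hz : ∀ a ∈ s, 0 ≤ z a) (hs : ∑ a ∈ s, z a = 1)
    (W : ℕ → ℕ → ℝ) (hW : ∀ a b, W a b = W b a) (n : ℕ) : ∀ h : ℕ → ℝ, ∃ φ : Fin n → ℕ,
      (n : ℝ) * (n - 1) * (∑ a ∈ s, ∑ b ∈ s, z a * z b * W a b) + n * ∑ a ∈ s, z a * h a ≤
        (∑ i, ∑ j, W (φ i) (φ j) - ∑ i, W (φ i) (φ i)) + ∑ i, h (φ i) := by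
  induction n with
  | zero => intro h; exact ⟨fun i => i.elim0, by simp⟩
  | succ n ih =>
    intro h
    set Q := ∑ a ∈ s, ∑ b ∈ s, z a * z b * W a b with hQ
    set H := ∑ a ∈ s, z a * h a with hH
    obtain ⟨a, ha⟩ : ∃ a, 2 * n * Q + H ≤ 2 * n * (∑ b ∈ s, z b * W a b) + h a := by
      by_contra hcon
      push Not at hcon
      obtain ⟨a₀, ha₀, ha₀'⟩ : ∃ a ∈ s, 0 < z a := by
        by_contra h'
        push Not at h'
        have : ∑ a ∈ s, z a ≤ 0 := Finset.sum_nonpos h'
        linarith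
      have hlt : ∑ a ∈ s, z a * (2 * n * (∑ b ∈ s, z b * W a b) + h a) <
          ∑ a ∈ s, z a * (2 * n * Q + H) := by
        apply Finset.sum_lt_sum
        · intro a ha
          exact mul_le_mul_of_nonneg_left (hcon a).le (hz a ha)
        · exact ⟨a₀, ha₀, mul_lt_mul_of_pos_left (hcon a₀) ha₀'⟩
      rw [← Finset.sum_mul, hs, one_mul] at hlt
      have heq : ∑ a ∈ s, z a * (2 * n * (∑ b ∈ s, z b * W a b) + h a) = 2 * n * Q + H := by
        rw [hQ, hH, Finset.mul_sum, ← Finset.sum_add_distrib]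
        refine Finset.sum_congr rfl fun a _ => ?_
        rw [mul_add, mul_left_comm, Finset.mul_sum (a := z a)]
        congr 2
        exact Finset.sum_congr rfl fun b _ => by ring
      linarith
    obtain ⟨φ, hφ⟩ := ih (fun b => h b + 2 * W a b)
    refine ⟨Fin.cons a φ, ?_⟩
    have e1 : ∑ b ∈ s, z b * (h b + 2 * W a b) = H + 2 * ∑ b ∈ s, z b * W a b := by
      rw [hH, Finset.mul_sum, ← Finset.sum_add_distrib]
      exact Finset.sum_congr rfl fun b _ => by ring
    have e2 : ∑ i, (h (φ i) + 2 * W a (φ i)) = ∑ i, h (φ i) + 2 * ∑ i, W a (φ i) := by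
      rw [Finset.sum_add_distrib, Finset.mul_sum]
    have e3 : ∑ i : Fin (n + 1), ∑ j : Fin (n + 1),
        W ((Fin.cons a φ : Fin (n + 1) → ℕ) i) ((Fin.cons a φ : Fin (n + 1) → ℕ) j) =
        W a a + 2 * ∑ i, W a (φ i) + ∑ i, ∑ j, W (φ i) (φ j) := by
      simp only [Fin.sum_univ_succ, Fin.cons_zero, Fin.cons_succ, Finset.sum_add_distrib]
      rw [Finset.sum_congr rfl fun i _ => hW (φ i) a]
      ring
    have e4 : ∑ i : Fin (n + 1),
        W ((Fin.cons a φ : Fin (n + 1) → ℕ) i) ((Fin.cons a φ : Fin (n + 1) → ℕ) i) =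
        W a a + ∑ i, W (φ i) (φ i) := by
      simp only [Fin.sum_univ_succ, Fin.cons_zero, Fin.cons_succ]
    have e5 : ∑ i : Fin (n + 1), h ((Fin.cons a φ : Fin (n + 1) → ℕ) i) =
        h a + ∑ i, h (φ i) := by
      simp only [Fin.sum_univ_succ, Fin.cons_zero, Fin.cons_succ]
    rw [e3, e4, e5]
    simp only [e1, e2] at hφ
    push_cast
    nlinarith [hφ, ha]

end Pool.Agent.Lib.MP_ee7c95_co
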